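import Pool.Agent.Helper24.AB.NT.Goals

/-! # Project AB, packet MEAS: the measure of the bad set -/

open MeasureTheory Set Filter Topology
open scoped ContDiff

namespace Pool.Agent.Helper32.AB

open Pool.Agent.Helper24.AB

/-- the sequence `n_k` is determined by `n_0, n_1` and the `d_k` -/
theorem det_n {x y : ℝ} {L : ℕ} (h0 : nk x 0 = nk y 0) (h1 : nk x 1 = nk y 1)
    (hd : ∀ i < L, dk x i = dk y i) : ∀ k ≤ L + 1, nk x k = nk y k := by
  intro k
  induction k using Nat.strong_induction_on with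
  | _ k ih =>
    intro hk
    match k, ih, hk with
    | 0, _, _ => exact h0
    | 1, _, _ => exact h1
    | k + 2, ih, hk =>
      have a1 := ih k (by omega) (by omega)
      have a2 := ih (k + 1) (by omega) (by omega)
      have a3 := hd k (by omega)
      unfold dk at a3
      omega

/-- the code of the `d_k` -/
noncomputable def dl (x : ℝ) (L : ℕ) : Fin L → Fin 5 :=
  fun i => ⟨(dk x i % 5).toNat, by have := Int.emod_lt_of_pos (dk x i) (by norm_num : (0:ℤ) < 5); omega⟩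

theorem dk_bd (hR : S_REC) (x : ℝ) (k : ℕ) : -2 ≤ dk x k ∧ dk x k ≤ 2 := abs_le.mp (hR x k).1

theorem dl_eq (hR : S_REC) {x y : ℝ} {L : ℕ} (h : dl x L = dl y L) : ∀ i < L, dk x i = dk y i := by
  intro i hi
  have h1 := congrArg Fin.val (congrFun h ⟨i, hi⟩)
  simp only [dl] at h1
  have hx := dk_bd hR x i
  have hy := dk_bd hR y i
  omega

theorem dl_ne (x : ℝ) {L : ℕ} {i : Fin L} (h : dl x L i ≠ 0) : dk x i ≠ 0 := by
  intro h0
  apply h
  apply Fin.ext
  simp [dl, h0]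

/-- few nonzero `d_k` -/
theorem card_dl (hR : S_REC) (x : ℝ) (L : ℕ)
    (hx : 100 * ((Finset.range (L + 2)).filter fun k => 1 / 10 ≤ dZ (x * lam ^ k)).card ≤ L + 2) :
    (Finset.univ.filter fun i => dl x L i ≠ 0).card ≤ 3 * (L + 2) / 100 := by
  obtain ⟨Bd, hBd⟩ : ∃ Bd, Bd = (Finset.range (L + 2)).filter fun k => 1 / 10 ≤ dZ (x * lam ^ k) :=
    ⟨_, rfl⟩
  rw [← hBd] at hx
  have h1 : (Finset.univ.filter fun i => dl x L i ≠ 0).image (fun i : Fin L => (i : ℕ)) ⊆
      Bd ∪ (Bd.image (fun k => k - 1) ∪ Bd.image (fun k => k - 2)) := by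
    intro j hj
    rw [Finset.mem_image] at hj
    obtain ⟨i, hi, rfl⟩ := hj
    rw [Finset.mem_filter] at hi
    have hd := dl_ne x hi.2
    have hiL := i.2
    by_contra hcon
    simp only [Finset.mem_union, Finset.mem_image, not_or, not_exists, not_and] at hcon
    obtain ⟨c1, c2, c3⟩ := hcon
    apply hd
    apply (hR x i).2
    · by_contra hc
      push Not at hc
      exact c1 (by rw [hBd, Finset.mem_filter, Finset.mem_range]; exact ⟨by omega, hc⟩)
    · by_contra hc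
      push Not at hc
      exact c2 (i + 1) (by rw [hBd, Finset.mem_filter, Finset.mem_range]; exact ⟨by omega, hc⟩)
        (by omega)
    · by_contra hc
      push Not at hc
      exact c3 (i + 2) (by rw [hBd, Finset.mem_filter, Finset.mem_range]; exact ⟨by omega, hc⟩)
        (by omega)
  have h2 := Finset.card_le_card h1
  rw [Finset.card_image_of_injective _ Fin.val_injective] at h2
  have h3 := Finset.card_union_le Bd (Bd.image (fun k => k - 1) ∪ Bd.image (fun k => k - 2))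
  have h4 := Finset.card_union_le (Bd.image (fun k => k - 1)) (Bd.image (fun k => k - 2))
  have h5 : (Bd.image (fun k => k - 1)).card ≤ Bd.card := Finset.card_image_le
  have h6 : (Bd.image (fun k => k - 2)).card ≤ Bd.card := Finset.card_image_le
  omega

/-- integers of absolute value at most `Y + 1/2` -/
noncomputable def iv (Y : ℝ) : Finset ℤ := Finset.Icc (-⌊Y + 1 / 2⌋) ⌊Y + 1 / 2⌋

theorem iv_card {Y : ℝ} (hY : 0 ≤ Y) : ((iv Y).card : ℝ) ≤ 2 * Y + 2 := by
  unfold iv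
  rw [Int.card_Icc]
  have h0 : 0 ≤ ⌊Y + 1 / 2⌋ := Int.floor_nonneg.mpr (by linarith)
  have h1 : (((⌊Y + 1 / 2⌋ + 1 - -⌊Y + 1 / 2⌋).toNat : ℤ) : ℝ)
      = ((⌊Y + 1 / 2⌋ + 1 - -⌊Y + 1 / 2⌋ : ℤ) : ℝ) := by
    rw [Int.toNat_of_nonneg (by omega)]
  have h2 : ((⌊Y + 1 / 2⌋ : ℤ) : ℝ) ≤ Y + 1 / 2 := Int.floor_le _
  rw [Int.cast_natCast] at h1
  rw [h1]
  push_cast
  linarith

theorem iv_mem {Y x : ℝ} (h : |x| ≤ Y) : round x ∈ iv Y := by
  unfold iv
  have h1 := abs_sub_round x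
  have h2 := abs_le.mp h1
  have h3 := abs_le.mp h
  rw [Finset.mem_Icc]
  constructor
  · rw [neg_le]
    rw [Int.le_floor]
    push_cast
    linarith [h2.1, h2.2, h3.1, h3.2]
  · rw [Int.le_floor]
    linarith [h2.1, h2.2, h3.1, h3.2]

theorem num_bd {l : ℝ} (h1 : 2.618 < l) (K M : ℕ) (hM : 100 * M ≤ 3 * K) :
    (2.2 : ℝ) ^ K * 40 ^ M ≤ l ^ K := by
  have hl : 0 < l := by linarith
  rw [← pow_le_pow_iff_left₀ (n := 100) (by positivity) (by positivity) (by norm_num)]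
  have e1 : ((2.2 : ℝ) ^ K * 40 ^ M) ^ 100 = (2.2 ^ 100) ^ K * 40 ^ (100 * M) := by
    rw [mul_pow, ← pow_mul, ← pow_mul, ← pow_mul]
    congr 2 <;> ring
  have e2 : (l ^ K) ^ 100 = (l ^ 100) ^ K := by
    rw [← pow_mul, ← pow_mul]
    congr 1
    ring
  rw [e1, e2]
  calc (2.2 ^ 100 : ℝ) ^ K * 40 ^ (100 * M) ≤ (2.2 ^ 100) ^ K * 40 ^ (3 * K) := by
        gcongr
        norm_num
    _ = (2.2 ^ 100 * 40 ^ 3) ^ K := by rw [mul_pow, pow_mul (40 : ℝ)]
    _ ≤ (2.618 ^ 100) ^ K := by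
        gcongr
        norm_num
    _ ≤ (l ^ 100) ^ K := by gcongr

theorem meas (hN : S_NUM) (hR : S_REC) (hC : S_CNT) : S_MEAS := by
  obtain ⟨_, _, _, _, _, _, _, _, _, hl1, hl2, _⟩ := hN
  have hlp : 0 < lam := by linarith
  intro X K hX
  by_cases hK : K ≤ 2
  · have h1 : {x : ℝ | |x| ≤ X ∧
        100 * ((Finset.range K).filter fun k => 1 / 10 ≤ dZ (x * lam ^ k)).card ≤ K}
        ⊆ Icc (-X) X := fun x hx => abs_le.mp hx.1
    refine (measure_mono h1).trans ?_
    rw [Real.volume_Icc]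
    apply ENNReal.ofReal_le_ofReal
    have h2 : (1 / 4 : ℝ) ≤ (1 / 2) ^ K := by
      have : (1 / 2 : ℝ) ^ 2 ≤ (1 / 2) ^ K :=
        pow_le_pow_of_le_one (by norm_num) (by norm_num) hK
      linarith
    nlinarith [sq_nonneg X, mul_le_mul_of_nonneg_left h2 (by positivity : 0 ≤ 100 * (X + 1) ^ 2)]
  push Not at hK
  obtain ⟨L, rfl⟩ : ∃ L, K = L + 2 := ⟨K - 2, by omega⟩
  obtain ⟨S, hS⟩ : ∃ S, S = {x : ℝ | |x| ≤ X ∧
    100 * ((Finset.range (L + 2)).filter fun k => 1 / 10 ≤ dZ (x * lam ^ k)).card ≤ L + 2} :=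
    ⟨_, rfl⟩
  rw [← hS]
  obtain ⟨M, hM⟩ : ∃ M, M = 3 * (L + 2) / 100 := ⟨_, rfl⟩
  classical
  -- the codes
  let DD : Finset (Fin L → Fin 5) := Finset.univ.filter fun d : Fin L → Fin 5 =>
    (Finset.univ.filter fun i => d i ≠ 0).card ≤ M
  let CC : Finset (ℤ × ℤ × (Fin L → Fin 5)) := iv X ×ˢ (iv (X * lam) ×ˢ DD)
  let code : ℝ → ℤ × ℤ × (Fin L → Fin 5) := fun x => (nk x 0, nk x 1, dl x L)
  have hcode : ∀ x ∈ S, code x ∈ CC := by
    intro x hx
    rw [hS] at hx
    obtain ⟨hx1, hx2⟩ := hx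
    rw [Finset.mem_product, Finset.mem_product]
    refine ⟨?_, ?_, ?_⟩
    · show nk x 0 ∈ iv X
      unfold nk
      rw [pow_zero, mul_one]
      exact iv_mem hx1
    · show nk x 1 ∈ iv (X * lam)
      unfold nk
      rw [pow_one]
      apply iv_mem
      rw [abs_mul, abs_of_pos hlp]
      gcongr
    · show dl x L ∈ DD
      simp only [DD, Finset.mem_filter, Finset.mem_univ, true_and]
      rw [hM]
      exact card_dl hR x L hx2
  let g : ℤ × ℤ × (Fin L → Fin 5) → ℤ := fun c =>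
    if h : ∃ x ∈ S, code x = c then nk h.choose (L + 1) else 0
  have hcov : S ⊆ ⋃ c ∈ CC, Metric.closedBall ((g c : ℝ) / lam ^ (L + 1))
      (1 / 2 / lam ^ (L + 1)) := by
    intro x hx
    rw [Set.mem_iUnion₂]
    refine ⟨code x, hcode x hx, ?_⟩
    have hex : ∃ y ∈ S, code y = code x := ⟨x, hx, rfl⟩
    have hg : g (code x) = nk x (L + 1) := by
      simp only [g, dif_pos hex]
      have h2 : code hex.choose = code x := hex.choose_spec.2
      have k0 : nk hex.choose 0 = nk x 0 := congrArg Prod.fst h2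
      have k1 : nk hex.choose 1 = nk x 1 := congrArg (fun c => c.2.1) h2
      have k2 : dl hex.choose L = dl x L := congrArg (fun c => c.2.2) h2
      exact det_n k0 k1 (dl_eq hR k2) (L + 1) le_rfl
    have hp : 0 < lam ^ (L + 1) := by positivity
    rw [hg, Metric.mem_closedBall, Real.dist_eq]
    have h3 := abs_sub_round (x * lam ^ (L + 1))
    have h4 : x - (nk x (L + 1) : ℝ) / lam ^ (L + 1)
        = (x * lam ^ (L + 1) - round (x * lam ^ (L + 1))) / lam ^ (L + 1) := by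
      unfold nk
      field_simp
    rw [h4, abs_div, abs_of_pos hp]
    gcongr
  have hp : 0 < lam ^ (L + 1) := by positivity
  have hvol : volume S ≤ ENNReal.ofReal ((CC.card : ℝ) * (1 / lam ^ (L + 1))) := by
    refine (measure_mono hcov).trans ((measure_biUnion_finset_le _ _).trans ?_)
    have h5 : ∀ c ∈ CC, volume (Metric.closedBall ((g c : ℝ) / lam ^ (L + 1))
        (1 / 2 / lam ^ (L + 1))) ≤ ENNReal.ofReal (1 / lam ^ (L + 1)) := by
      intro c _
      rw [Real.volume_closedBall]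
      apply ENNReal.ofReal_le_ofReal
      apply le_of_eq
      ring
    refine (Finset.sum_le_sum h5).trans ?_
    rw [Finset.sum_const, nsmul_eq_mul, ENNReal.ofReal_mul (by positivity), ENNReal.ofReal_natCast]
  refine hvol.trans (ENNReal.ofReal_le_ofReal ?_)
  have hcard : (CC.card : ℝ) ≤ (2 * X + 2) * ((2 * (X * lam) + 2) * ((11 / 10) ^ L * 40 ^ M)) := by
    simp only [CC, Finset.card_product]
    push_cast
    have a1 := iv_card hX
    have a2 := iv_card (by positivity : 0 ≤ X * lam)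
    have a3 : (DD.card : ℝ) ≤ (11 / 10) ^ L * 40 ^ M := hC L M
    gcongr
  have h6 := num_bd hl1 (L + 2) M (by omega)
  have h7 : (2.2 : ℝ) ^ (L + 2) = (11 / 10) ^ L * 2 ^ (L + 2) * (121 / 100) := by
    have : (2.2 : ℝ) = 11 / 10 * 2 := by norm_num
    rw [this, mul_pow, pow_add (11 / 10 : ℝ)]
    ring
  have h8 : (1 / 2 : ℝ) ^ (L + 2) * 2 ^ (L + 2) = 1 := by
    rw [← mul_pow]; norm_num
  have h9 : (11 / 10 : ℝ) ^ L * 40 ^ M ≤ lam ^ (L + 2) * (1 / 2) ^ (L + 2) := by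
    have h10 : (11 / 10 : ℝ) ^ L * 40 ^ M * 2 ^ (L + 2) * (121 / 100) ≤ lam ^ (L + 2) := by
      rw [h7] at h6
      linarith
    have h11 : 0 ≤ (11 / 10 : ℝ) ^ L * 40 ^ M * 2 ^ (L + 2) := by positivity
    have h12 : (11 / 10 : ℝ) ^ L * 40 ^ M * 2 ^ (L + 2) ≤ lam ^ (L + 2) := by linarith
    have h13 := mul_le_mul_of_nonneg_right h12 (by positivity : (0:ℝ) ≤ (1 / 2) ^ (L + 2))
    calc (11 / 10 : ℝ) ^ L * 40 ^ M = (11 / 10 : ℝ) ^ L * 40 ^ M * ((1 / 2) ^ (L + 2) * 2 ^ (L + 2)) := by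
          rw [h8, mul_one]
      _ = (11 / 10 : ℝ) ^ L * 40 ^ M * 2 ^ (L + 2) * (1 / 2) ^ (L + 2) := by ring
      _ ≤ _ := h13
  calc (CC.card : ℝ) * (1 / lam ^ (L + 1))
      ≤ ((2 * X + 2) * ((2 * (X * lam) + 2) * (lam ^ (L + 2) * (1 / 2) ^ (L + 2))))
        * (1 / lam ^ (L + 1)) := by
        apply mul_le_mul_of_nonneg_right _ (by positivity)
        refine hcard.trans ?_
        gcongr
    _ = (2 * X + 2) * (2 * (X * lam) + 2) * lam * (1 / 2) ^ (L + 2) := by
        rw [pow_succ lam (L + 1)]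
        field_simp
    _ ≤ 100 * (X + 1) ^ 2 * (1 / 2) ^ (L + 2) := by
        apply mul_le_mul_of_nonneg_right _ (by positivity)
        have b1 : (2 * (X * lam) + 2) * lam ≤ 50 * (X + 1) := by
          have c1 : lam * lam ≤ 7 := by nlinarith
          have c2 : X * (lam * lam) ≤ X * 7 := mul_le_mul_of_nonneg_left c1 hX
          nlinarith
        have b2 := mul_le_mul_of_nonneg_left b1 (by positivity : 0 ≤ 2 * X + 2)
        nlinarith

end Pool.Agent.Helper32.AB
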